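import Pool.Agent.H962.AC.App

/-!
# Project AC (helper63): quotients of the Gamma factors (by helper962)
-/

set_option autoImplicit false

namespace Pool.Agent.H962.AC.GamR

open Complex MeasureTheory Filter Topology
open Pool.Agent.H63.AC
open Pool.Agent.H962.AC.App (app_bound app_mul app_congr)

/-- the phase -/
noncomputable def ph (t : ℝ) : ℝ := t * Real.log t - (1 + Real.log (2 * Real.pi)) * t

/-- the quotient -/
noncomputable def rt (b : ℝ) (μ : ℂ) (t : ℝ) : ℂ := Gammaℝ (ln b t + μ) / Gammaℝ (1 - ln b t + μ)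

theorem ln_im (b t : ℝ) : (ln b t).im = t := by
  unfold ln
  simp

theorem ln_re (b t : ℝ) : (ln b t).re = b := by
  unfold ln
  simp

theorem ne_of_im {z : ℂ} (h : z.im ≠ 0) : Gammaℝ z ≠ 0 := by
  rw [Ne, Gammaℝ_eq_zero_iff, not_exists]
  intro n hn
  apply h
  rw [hn]
  simp

/-- the power of `π` -/
theorem app_pi (b : ℝ) : App (fun t => (Real.pi : ℂ) ^ ((1 / 2 : ℂ) - ln b t)) 0
    (fun t => -(Real.log Real.pi) * t) := by
  refine ⟨(Real.pi : ℂ) ^ ((1 / 2 : ℂ) - b), 0, 1, le_rfl, fun t _ => ?_⟩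
  have hpi : (Real.pi : ℂ) ≠ 0 := by exact_mod_cast Real.pi_ne_zero
  have e1 : (Real.pi : ℂ) ^ ((1 / 2 : ℂ) - ln b t) =
      (Real.pi : ℂ) ^ ((1 / 2 : ℂ) - b) * cexp (I * ((-(Real.log Real.pi) * t : ℝ) : ℂ)) := by
    have h1 : (1 / 2 : ℂ) - ln b t = ((1 / 2 : ℂ) - b) + (-(t * I)) := by
      unfold ln
      ring
    rw [h1, Complex.cpow_add _ _ hpi]
    congr 1
    rw [Complex.cpow_def_of_ne_zero hpi, ← Complex.ofReal_log Real.pi_pos.le]
    congr 1
    push_cast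
    ring
  show ‖(Real.pi : ℂ) ^ ((1 / 2 : ℂ) - ln b t) - (Real.pi : ℂ) ^ ((1 / 2 : ℂ) - b) *
    ((t ^ (0 : ℝ) : ℝ) : ℂ) * cexp (I * ((-(Real.log Real.pi) * t : ℝ) : ℂ))‖ ≤ _
  rw [e1, Real.rpow_zero, Complex.ofReal_one, mul_one, sub_self, norm_zero, zero_mul]

/-- the case of nonnegative real parts -/
theorem app_base (h0 : S_gam0) (b : ℝ) (μ : ℂ) (h1 : 0 ≤ ((b : ℂ) + μ).re)
    (h2 : 0 ≤ ((1 : ℂ) - b + μ).re) : App (rt b μ) (b - 1 / 2) ph := by
  have h3 := app_mul (h0 (b + μ) (1 - b + μ) (b - 1 / 2) h1 h2 (by push_cast; ring)) (app_pi b)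
  rw [add_zero] at h3
  refine app_congr h3 1 (fun t ht => ?_) (fun t ht => ?_)
  · have hpi : (Real.pi : ℂ) ≠ 0 := by exact_mod_cast Real.pi_ne_zero
    unfold rt
    rw [Gammaℝ_def, Gammaℝ_def]
    have e1 : (ln b t + μ) / 2 = ((b : ℂ) + μ + t * I) / 2 := by unfold ln; ring
    have e2 : (1 - ln b t + μ) / 2 = ((1 : ℂ) - b + μ - t * I) / 2 := by unfold ln; ring
    have e3 : (Real.pi : ℂ) ^ ((1 / 2 : ℂ) - ln b t) =
        (Real.pi : ℂ) ^ (-(ln b t + μ) / 2) / (Real.pi : ℂ) ^ (-(1 - ln b t + μ) / 2) := by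
      rw [← Complex.cpow_sub _ _ hpi]
      congr 1
      ring
    rw [e1, e2, e3, mul_div_mul_comm, mul_comm]
  · unfold ph
    rw [Real.log_mul two_ne_zero Real.pi_ne_zero]
    ring

/-- the correction factor -/
theorem app_corr (b : ℝ) (μ : ℂ) :
    App (fun t => (1 - ln b t + μ) / (ln b t + μ)) 0 (fun _ => 0) := by
  refine ⟨-1, 2 * ‖1 + 2 * μ‖, max 1 (2 * |μ.im|), le_max_left _ _, fun t ht => ?_⟩
  have ht1 : 1 ≤ t := (le_max_left _ _).trans ht
  have ht2 : 2 * |μ.im| ≤ t := (le_max_right _ _).trans ht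
  have htp : 0 < t := by linarith
  have him : t / 2 ≤ |(ln b t + μ).im| := by
    rw [add_im, ln_im]
    have h1 := neg_abs_le μ.im
    have h2 := le_abs_self (t + μ.im)
    linarith
  have hn : t / 2 ≤ ‖ln b t + μ‖ := him.trans (abs_im_le_norm _)
  have hne : ln b t + μ ≠ 0 := by
    intro h
    rw [h, norm_zero] at hn
    linarith
  have e1 : (1 - ln b t + μ) / (ln b t + μ) -
      -1 * ((t ^ (0 : ℝ) : ℝ) : ℂ) * cexp (I * ((0 : ℝ) : ℂ)) = (1 + 2 * μ) / (ln b t + μ) := by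
    rw [Real.rpow_zero]
    simp only [Complex.ofReal_one, Complex.ofReal_zero, mul_zero, Complex.exp_zero, mul_one]
    field_simp
    ring
  show ‖(1 - ln b t + μ) / (ln b t + μ) -
      -1 * ((t ^ (0 : ℝ) : ℝ) : ℂ) * cexp (I * ((0 : ℝ) : ℂ))‖ ≤ _
  rw [e1, norm_div, zero_sub, Real.rpow_neg_one, div_le_iff₀ (by linarith)]
  have h3 : 1 ≤ 2 * (t⁻¹ * ‖ln b t + μ‖) := by
    have h4 : t⁻¹ * (t / 2) ≤ t⁻¹ * ‖ln b t + μ‖ :=
      mul_le_mul_of_nonneg_left hn (inv_pos.2 htp).le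
    have h5 : t⁻¹ * (t / 2) = 1 / 2 := by field_simp
    linarith
  calc ‖1 + 2 * μ‖ = ‖1 + 2 * μ‖ * 1 := (mul_one _).symm
    _ ≤ ‖1 + 2 * μ‖ * (2 * (t⁻¹ * ‖ln b t + μ‖)) :=
        mul_le_mul_of_nonneg_left h3 (norm_nonneg _)
    _ = _ := by ring

theorem rt_step (b : ℝ) (μ : ℂ) (t : ℝ) (ht : |μ.im| < t) :
    rt b μ t = rt b (μ + 2) t * ((1 - ln b t + μ) / (ln b t + μ)) := by
  have h1 : (ln b t + μ).im ≠ 0 := by
    rw [add_im, ln_im]
    have := neg_abs_le μ.im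
    intro h
    linarith
  have h2 : (1 - ln b t + μ).im ≠ 0 := by
    rw [add_im, sub_im, ln_im, one_im]
    have := le_abs_self μ.im
    intro h
    linarith
  have n1 : ln b t + μ ≠ 0 := fun h => h1 (by rw [h]; rfl)
  have n2 : 1 - ln b t + μ ≠ 0 := fun h => h2 (by rw [h]; rfl)
  have g1 := ne_of_im h1
  have g2 := ne_of_im h2
  have hpi : (Real.pi : ℂ) ≠ 0 := by exact_mod_cast Real.pi_ne_zero
  unfold rt
  rw [← add_assoc, ← add_assoc, Gammaℝ_add_two n1, Gammaℝ_add_two n2]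
  field_simp

theorem app_all (h0 : S_gam0) (n : ℕ) : ∀ (b : ℝ) (μ : ℂ), -(2 * n : ℝ) ≤ ((b : ℂ) + μ).re →
    -(2 * n : ℝ) ≤ ((1 : ℂ) - b + μ).re → App (rt b μ) (b - 1 / 2) ph := by
  induction n with
  | zero =>
    intro b μ h1 h2
    simp only [Nat.cast_zero, mul_zero, neg_zero] at h1 h2
    exact app_base h0 b μ h1 h2
  | succ n ih =>
    intro b μ h1 h2
    have h3 := ih b (μ + 2) (by
      rw [← add_assoc, add_re]
      have : (2 : ℂ).re = 2 := rfl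
      rw [this]
      push_cast at h1
      linarith) (by
      rw [← add_assoc, add_re]
      have : (2 : ℂ).re = 2 := rfl
      rw [this]
      push_cast at h2
      linarith)
    have h4 := app_mul h3 (app_corr b μ)
    rw [add_zero] at h4
    refine app_congr h4 (|μ.im| + 1) (fun t ht => ?_) (fun t _ => ?_)
    · exact rt_step b μ t (by linarith)
    · rw [add_zero]

theorem app_rt (h0 : S_gam0) (b : ℝ) (μ : ℂ) : App (rt b μ) (b - 1 / 2) ph := by
  obtain ⟨n, hn⟩ := exists_nat_ge (|((b : ℂ) + μ).re| + |((1 : ℂ) - b + μ).re|)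
  have a1 := neg_abs_le ((b : ℂ) + μ).re
  have a2 := neg_abs_le ((1 : ℂ) - b + μ).re
  have a3 := abs_nonneg ((b : ℂ) + μ).re
  have a4 := abs_nonneg ((1 : ℂ) - b + μ).re
  exact app_all h0 n b μ (by linarith) (by linarith)

theorem gr_conj (s : ℂ) : Gammaℝ ((starRingEnd ℂ) s) = (starRingEnd ℂ) (Gammaℝ s) := by
  have harg : (Real.pi : ℂ).arg ≠ Real.pi := by
    rw [Complex.arg_ofReal_of_nonneg Real.pi_pos.le]
    exact Real.pi_ne_zero.symm
  rw [Gammaℝ_def, Gammaℝ_def, map_mul]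
  have e1 : (starRingEnd ℂ) s / 2 = (starRingEnd ℂ) (s / 2) := by
    rw [map_div₀, map_ofNat]
  have e2 : -(starRingEnd ℂ) s / 2 = (starRingEnd ℂ) (-s / 2) := by
    rw [map_div₀, map_neg, map_ofNat]
  rw [e1, e2, Complex.Gamma_conj, Complex.cpow_conj _ _ harg, Complex.conj_ofReal]

theorem rt_neg (b : ℝ) (μ : ℂ) (t : ℝ) : ‖rt b μ t‖ = ‖rt b ((starRingEnd ℂ) μ) (-t)‖ := by
  have e1 : (starRingEnd ℂ) (ln b t + μ) = ln b (-t) + (starRingEnd ℂ) μ := by
    unfold ln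
    simp
  have e2 : (starRingEnd ℂ) (1 - ln b t + μ) = 1 - ln b (-t) + (starRingEnd ℂ) μ := by
    unfold ln
    simp
  unfold rt
  rw [← e1, ← e2, gr_conj, gr_conj, ← map_div₀, Complex.norm_conj]

theorem t_gamR (h0 : S_gam0) (_h1 : S_app) : S_gamR := by
  refine ⟨fun b μ => app_rt h0 b μ, fun b μ => ?_, fun b μ => ?_⟩
  · obtain ⟨K, t0, hK, ht0, h⟩ := app_bound (app_rt h0 b μ)
    obtain ⟨K', t1, hK', ht1, h'⟩ := app_bound (app_rt h0 b ((starRingEnd ℂ) μ))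
    refine ⟨K + K', max t0 t1, ht0.trans (le_max_left _ _), fun t ht => ?_⟩
    have hp : 0 ≤ |t| ^ (b - 1 / 2) := Real.rpow_nonneg (abs_nonneg t) _
    show ‖rt b μ t‖ ≤ _
    rcases le_total 0 t with h2 | h2
    · rw [abs_of_nonneg h2] at ht hp ⊢
      have h3 := h t ((le_max_left _ _).trans ht)
      have h4 : 0 ≤ K' * t ^ (b - 1 / 2) := mul_nonneg hK' hp
      linarith
    · rw [abs_of_nonpos h2] at ht hp ⊢
      rw [rt_neg]
      have h3 := h' (-t) ((le_max_right _ _).trans ht)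
      have h4 : 0 ≤ K * (-t) ^ (b - 1 / 2) := mul_nonneg hK hp
      linarith
  · refine ⟨|μ.im| + 1, ?_⟩
    intro t ht
    have ht' : |μ.im| + 1 ≤ t := ht
    have him : (ln b t + μ).im ≠ 0 := by
      rw [add_im, ln_im]
      have := neg_abs_le μ.im
      intro h
      linarith
    have hc1 : Continuous (fun t : ℝ => ln b t + μ) := by
      unfold ln
      fun_prop
    have hc2 : Continuous (fun t : ℝ => 1 - ln b t + μ) := by
      unfold ln
      fun_prop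
    have hd : Continuous (fun s : ℂ => (Gammaℝ s)⁻¹) := differentiable_Gammaℝ_inv.continuous
    have h1 : ContinuousAt (fun t : ℝ => ((Gammaℝ (ln b t + μ))⁻¹)⁻¹) t :=
      (hd.comp hc1).continuousAt.inv₀ (inv_ne_zero (ne_of_im him))
    have h2 : ContinuousAt (fun t : ℝ => (Gammaℝ (1 - ln b t + μ))⁻¹) t :=
      (hd.comp hc2).continuousAt
    have h3 := h1.mul h2
    simp only [inv_inv] at h3
    have h4 : (fun t : ℝ => Gammaℝ (ln b t + μ) / Gammaℝ (1 - ln b t + μ)) =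
        fun t : ℝ => Gammaℝ (ln b t + μ) * (Gammaℝ (1 - ln b t + μ))⁻¹ := by
      funext t
      rw [div_eq_mul_inv]
    rw [h4]
    exact h3.continuousWithinAt

end Pool.Agent.H962.AC.GamR
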